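import Pool.Agent.H.MP_68925f_co.Exist

set_option autoImplicit false

namespace Pool.Agent.Results.MP_68925f_co.NotRegular

open Pool.Agent.H.MP_68925f_co

/-- The rules that fix the nim product; `^^^` is the nim sum (bitwise exclusive or). -/
def IsNimProduct (mul : ℕ → ℕ → ℕ) : Prop :=
  (∀ a n, n < 2 ^ 2 ^ a → mul (2 ^ 2 ^ a) n = 2 ^ 2 ^ a * n) ∧
  (∀ a, mul (2 ^ 2 ^ a) (2 ^ 2 ^ a) = 3 * 2 ^ 2 ^ a / 2) ∧
  (∀ x y z, mul (mul x y) z = mul x (mul y z)) ∧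
  (∀ x y, mul x y = mul y x) ∧
  (∀ x y z, mul x (y ^^^ z) = mul x y ^^^ mul x z)

/-- The 2-kernel of the sequence generates a finitely generated module. -/
def Regular (s : ℕ → ℤ) : Prop :=
  (Submodule.span ℤ {u : ℕ → ℤ | ∃ e r : ℕ, r < 2 ^ e ∧ u = fun n => s (2 ^ e * n + r)}).FG

/-- The 2-kernel of the array generates a finitely generated module. -/
def Regular2 (t : ℕ × ℕ → ℤ) : Prop :=
  (Submodule.span ℤ {u : ℕ × ℕ → ℤ | ∃ e r r' : ℕ, r < 2 ^ e ∧ r' < 2 ^ e ∧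
    u = fun p => t (2 ^ e * p.1 + r, 2 ^ e * p.2 + r')}).FG

theorem result : (∃ mul, IsNimProduct mul) ∧ ∀ mul, IsNimProduct mul →
    ¬ Regular (fun n => (mul n n : ℤ)) ∧ ¬ Regular2 (fun p => (mul p.1 p.2 : ℤ)) := by
  refine ⟨⟨nim, nim_Nim.ra, nim_Nim.rb, nim_Nim.assoc, nim_Nim.comm, nim_Nim.dist⟩, ?_⟩
  rintro m ⟨h1, h2, h3, h4, h5⟩
  have h : Nim m := ⟨h1, h2, h3, h4, h5⟩
  constructor
  · intro hS
    obtain ⟨e, p, hp, he⟩ := fg_repeat _ hS (fun e n => (m (2 ^ e * n) (2 ^ e * n) : ℤ))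
      (fun e => ⟨e, 0, by positivity, rfl⟩)
    exact h.not_periodic e p hp (fun n => mod_two_of_cast _ _ (he n))
  · intro hS
    obtain ⟨e, p, hp, he⟩ := fg_repeat _ hS (fun e q => (m (2 ^ e * q.1) (2 ^ e * q.2) : ℤ))
      (fun e => ⟨e, 0, 0, by positivity, by positivity, rfl⟩)
    exact h.not_periodic e p hp (fun n => mod_two_of_cast _ _ (he (n, n)))

end Pool.Agent.Results.MP_68925f_co.NotRegular
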